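import Pool.Agent.Helper74.DI.StM

set_option autoImplicit false

namespace Pool.Agent.Helper41.DI

open Pool.Agent.Helper74 Pool.Agent.Helper74.DI
open Pool.Agent.Helper74.NM (NC)

private lemma cn_false {G : Type} (b : Bool) (w : List G) : cn (fun _ _ => false) b w = 0 := by
  induction w generalizing b with
  | nil => rfl
  | cons x w ih => simp [cn, ih]

theorem hLF2 (hE2C : StE2C) (hCTM : StCTM) (hFIN : StFIN) (hINT : StINT) (hHED : StHED) :
    StLF2 := by
  intro n φ ψ
  obtain ⟨F, hF⟩ := hE2C n φ ψ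
  rw [← hHED]
  have h1 := hCTM n (fun _ _ => false)
  have h2 := hFIN (Fin n) ℕ F (fun c => {w : List (Fin n) | Even w.length ∧
    2 * cn (fun b x => decide ((if b then φ x else ψ x) = some c)) true w ≤ w.length})
    (fun c _ => hCTM n (fun b x => decide ((if b then φ x else ψ x) = some c)))
  have h3 := hINT (Fin n) _ _ h1 h2
  convert h3 using 1
  ext w
  simp only [Set.mem_ofPred_eq, Set.mem_inter_iff]
  rw [hF w, cn_false]
  constructor
  · rintro ⟨h4, h5⟩
    exact ⟨⟨h4, by omega⟩, fun c hc => ⟨h4, h5 c hc⟩⟩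
  · rintro ⟨⟨h4, -⟩, h5⟩
    exact ⟨h4, fun c hc => (h5 c hc).2⟩

end Pool.Agent.Helper41.DI
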